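import Pool.Agent.Helper53.PT.GoalsB

/-!
Packet 6523 (PT LINE).
-/

namespace Pool.Agent.Helper90.PT

open MeasureTheory Set Filter Topology
open Pool.Agent.Helper53.PT

theorem gLINE : GLINE := by
  intro hRL θ z m xW xD yN hFA K x e Ll rl α β hx0 hxs hxK hL hβ h1 h2 h3 y hy0 hyz
  obtain ⟨-, hpos, -, -, -, -, -, hconv, -⟩ := hRL θ z m xW xD yN hFA
  have hθ0 : 0 < θ := by linarith [hFA.th0]
  have hθ1 : θ < 1 / 2 := hFA.th1
  have hz : 0 < z := hFA.z0
  -- positions
  have hxnn : ∀ k, k ≤ K → 0 ≤ x k := by
    intro k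
    induction k with
    | zero => intro _; rw [hx0]
    | succ k ih =>
      intro hk
      have := ih (by omega)
      have := hxs k (by omega)
      linarith
  have hxle : ∀ j, ∀ k, k + j = K → x k ≤ x K := by
    intro j
    induction j with
    | zero => intro k hk; have : k = K := by omega
              rw [this]
    | succ j ih =>
      intro k hk
      have h1 := ih (k + 1) (by omega)
      have h2 := hxs k (by omega)
      linarith
  have hxz : ∀ k, k ≤ K → x k < z := by
    intro k hk
    have := hxle (K - k) k (by omega)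
    linarith
  -- derivative of -log f0
  have hder : ∀ t, 0 ≤ t → t < z → HasDerivAt (fun s => -Real.log (f0 θ s)) (rr θ t / 2) t := by
    intro t ht0 htz
    have hp := hpos t ht0 htz
    have hd := (hasDerivAt_f0 hθ0 hθ1 t).log hp.ne'
    have hd2 := hd.neg
    have he : rr θ t / 2 = -(-(f1 θ t) / 2 / f0 θ t) := by
      unfold rr
      field_simp
    rw [he]
    exact hd2
  -- tangent inequality
  have htan : ∀ t, 0 ≤ t → t ≤ y → t < z →
      -Real.log (f0 θ t) + rr θ t / 2 * (y - t) ≤ -Real.log (f0 θ y) := by
    intro t ht0 hty htz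
    rcases eq_or_lt_of_le hty with h | h
    · rw [h]; simp
    · have hs := hconv.le_slope_of_hasDerivAt ⟨ht0, htz⟩ ⟨hy0, hyz⟩ h (hder t ht0 htz)
      rw [slope_def_field] at hs
      rw [le_div_iff₀ (by linarith)] at hs
      linarith
  -- enough
  have hmain : α * y + β * y ^ 2 ≤ -Real.log (f0 θ y) := by
    by_cases hyK : x K ≤ y
    · -- beyond x K
      have ht := htan (x K) (hxnn K le_rfl) hyK hxK
      have hK := hL K le_rfl
      have hK1 := h1 K le_rfl
      have hyx : 0 ≤ y - x K := by linarith
      have h5 : α + β * (y + x K) ≤ rl K / 2 := by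
        have : β * (y + x K) ≤ β * (2 * z) := mul_le_mul_of_nonneg_left (by linarith) hβ
        linarith
      have h6 : (y - x K) * (α + β * (y + x K)) ≤ (y - x K) * (rr θ (x K) / 2) := by
        apply mul_le_mul_of_nonneg_left _ hyx
        linarith [hK.2]
      nlinarith [hK.1]
    · -- find the interval
      have hex : ∃ k, k < K ∧ x k ≤ y ∧ y ≤ x (k + 1) := by
        have hgen : ∀ n, n ≤ K → y < x n → ∃ k, k < n ∧ x k ≤ y ∧ y ≤ x (k + 1) := by
          intro n
          induction n with
          | zero => intro _ h; rw [hx0] at h; linarith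
          | succ n ih =>
            intro hn h
            by_cases hc : y < x n
            · obtain ⟨k, hk1, hk2, hk3⟩ := ih (by omega) hc
              exact ⟨k, by omega, hk2, hk3⟩
            · exact ⟨n, by omega, by linarith, h.le⟩
        exact hgen K le_rfl (by linarith)
      obtain ⟨k, hkK, hk1, hk2⟩ := hex
      have ht := htan (x k) (hxnn k hkK.le) hk1 (hxz k hkK.le)
      have hk := hL k hkK.le
      have hA := h1 k hkK.le
      have hB := h2 k hkK
      have hd : 0 < x (k + 1) - x k := by linarith [hxs k hkK]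
      have ha : 0 ≤ y - x k := by linarith
      have hb : 0 ≤ x (k + 1) - y := by linarith
      -- the chord
      have hchord : (α * y + β * y ^ 2) * (x (k + 1) - x k) ≤
          (x (k + 1) - y) * (x k * (α + β * x k)) + (y - x k) * (x (k + 1) * (α + β * x (k + 1))) := by
        have h7 : 0 ≤ β * ((y - x k) * (x (k + 1) - y) * (x (k + 1) - x k)) :=
          mul_nonneg hβ (mul_nonneg (mul_nonneg ha hb) hd.le)
        nlinarith [h7]
      have h8 : (x (k + 1) - y) * (x k * (α + β * x k)) ≤ (x (k + 1) - y) * Ll k :=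
        mul_le_mul_of_nonneg_left hA hb
      have h9 : (y - x k) * (x (k + 1) * (α + β * x (k + 1))) ≤
          (y - x k) * (Ll k + rl k / 2 * (x (k + 1) - x k)) := mul_le_mul_of_nonneg_left hB ha
      have h10 : (α * y + β * y ^ 2) * (x (k + 1) - x k) ≤
          (Ll k + rl k / 2 * (y - x k)) * (x (k + 1) - x k) := by
        have he : (x (k + 1) - y) * Ll k + (y - x k) * (Ll k + rl k / 2 * (x (k + 1) - x k)) =
          (Ll k + rl k / 2 * (y - x k)) * (x (k + 1) - x k) := by ring
        linarith
      have h11 := le_of_mul_le_mul_right h10 hd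
      have h12 : rl k / 2 * (y - x k) ≤ rr θ (x k) / 2 * (y - x k) :=
        mul_le_mul_of_nonneg_right (by linarith [hk.2]) ha
      linarith [hk.1]
  have hpy := hpos y hy0 hyz
  calc f0 θ y = Real.exp (Real.log (f0 θ y)) := (Real.exp_log hpy).symm
    _ ≤ Real.exp (-(α * y) - β * y ^ 2) := Real.exp_le_exp.2 (by linarith)

end Pool.Agent.Helper90.PT
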