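import Pool.Agent.Helper53.PT.GoalsA

/-!
# MP_705522_gt, packet PT-BD: simple bounds of `f0, .., f3`.
-/

namespace Pool.Agent.Helper90.PT

open MeasureTheory Set Filter Topology
open Pool.Agent.Helper53.PT

/-! ### Taylor bounds -/

theorem mono0 {F F' : ℝ → ℝ} (h : ∀ x, HasDerivAt F (F' x) x) (h0 : F 0 = 0)
    (hF' : ∀ x, 0 ≤ x → 0 ≤ F' x) {x : ℝ} (hx : 0 ≤ x) : 0 ≤ F x := by
  have hm : MonotoneOn F (Ici 0) := by
    refine monotoneOn_of_deriv_nonneg (convex_Ici 0) (fun y _ => (h y).continuousAt.continuousWithinAt)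
      (fun y _ => (h y).differentiableAt.differentiableWithinAt) ?_
    intro y hy
    rw [interior_Ici] at hy
    rw [(h y).deriv]
    exact hF' y (le_of_lt hy)
  have h1 := hm (mem_Ici.2 le_rfl) (mem_Ici.2 hx) hx
  rw [h0] at h1
  exact h1

theorem sin_ge3 {x : ℝ} (hx : 0 ≤ x) : x - x ^ 3 / 6 ≤ Real.sin x := by
  have h : ∀ x : ℝ, HasDerivAt (fun x => Real.sin x - (x - x ^ 3 / 6))
      (Real.cos x - (1 - x ^ 2 / 2)) x := by
    intro x
    have h1 : HasDerivAt (fun x : ℝ => x ^ 3 / 6) (x ^ 2 / 2) x := by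
      refine ((hasDerivAt_pow 3 x).div_const 6).congr_deriv ?_
      push_cast
      ring
    exact (Real.hasDerivAt_sin x).sub ((hasDerivAt_id' x).sub h1)
  have h2 := mono0 h (by simp) (fun x _ => by
    have := Real.one_sub_sq_div_two_le_cos (x := x)
    linarith) hx
  linarith

theorem cos_le4 {x : ℝ} (hx : 0 ≤ x) : Real.cos x ≤ 1 - x ^ 2 / 2 + x ^ 4 / 24 := by
  have h : ∀ x : ℝ, HasDerivAt (fun x => 1 - x ^ 2 / 2 + x ^ 4 / 24 - Real.cos x)
      (Real.sin x - (x - x ^ 3 / 6)) x := by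
    intro x
    have h1 : HasDerivAt (fun x : ℝ => x ^ 2 / 2) x x := by
      refine ((hasDerivAt_pow 2 x).div_const 2).congr_deriv ?_
      push_cast
      ring
    have h2 : HasDerivAt (fun x : ℝ => x ^ 4 / 24) (x ^ 3 / 6) x := by
      refine ((hasDerivAt_pow 4 x).div_const 24).congr_deriv ?_
      push_cast
      ring
    refine (((h1.const_sub 1).add h2).sub (Real.hasDerivAt_cos x)).congr_deriv ?_
    ring
  have h2 := mono0 h (by simp) (fun x hx => by
    have := sin_ge3 hx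
    linarith) hx
  linarith

theorem sin_le5 {x : ℝ} (hx : 0 ≤ x) : Real.sin x ≤ x - x ^ 3 / 6 + x ^ 5 / 120 := by
  have h : ∀ x : ℝ, HasDerivAt (fun x => x - x ^ 3 / 6 + x ^ 5 / 120 - Real.sin x)
      (1 - x ^ 2 / 2 + x ^ 4 / 24 - Real.cos x) x := by
    intro x
    have h1 : HasDerivAt (fun x : ℝ => x ^ 3 / 6) (x ^ 2 / 2) x := by
      refine ((hasDerivAt_pow 3 x).div_const 6).congr_deriv ?_
      push_cast
      ring
    have h2 : HasDerivAt (fun x : ℝ => x ^ 5 / 120) (x ^ 4 / 24) x := by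
      refine ((hasDerivAt_pow 5 x).div_const 120).congr_deriv ?_
      push_cast
      ring
    exact (((hasDerivAt_id' x).sub h1).add h2).sub (Real.hasDerivAt_sin x)
  have h2 := mono0 h (by simp) (fun x hx => by
    have := cos_le4 hx
    linarith) hx
  linarith

theorem cos_ge6 {x : ℝ} (hx : 0 ≤ x) : 1 - x ^ 2 / 2 + x ^ 4 / 24 - x ^ 6 / 720 ≤ Real.cos x := by
  have h : ∀ x : ℝ, HasDerivAt (fun x => Real.cos x - (1 - x ^ 2 / 2 + x ^ 4 / 24 - x ^ 6 / 720))
      ((x - x ^ 3 / 6 + x ^ 5 / 120) - Real.sin x) x := by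
    intro x
    have h1 : HasDerivAt (fun x : ℝ => x ^ 2 / 2) x x := by
      refine ((hasDerivAt_pow 2 x).div_const 2).congr_deriv ?_
      push_cast
      ring
    have h2 : HasDerivAt (fun x : ℝ => x ^ 4 / 24) (x ^ 3 / 6) x := by
      refine ((hasDerivAt_pow 4 x).div_const 24).congr_deriv ?_
      push_cast
      ring
    have h3 : HasDerivAt (fun x : ℝ => x ^ 6 / 720) (x ^ 5 / 120) x := by
      refine ((hasDerivAt_pow 6 x).div_const 720).congr_deriv ?_
      push_cast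
      ring
    refine ((Real.hasDerivAt_cos x).sub (((h1.const_sub 1).add h2).sub h3)).congr_deriv ?_
    ring
  have h2 := mono0 h (by simp) (fun x hx => by
    have := sin_le5 hx
    linarith) hx
  linarith

theorem cos_le4' (x : ℝ) : Real.cos x ≤ 1 - x ^ 2 / 2 + x ^ 4 / 24 := by
  rcases le_total 0 x with h | h
  · exact cos_le4 h
  · have h1 := cos_le4 (neg_nonneg.2 h)
    rw [Real.cos_neg] at h1
    nlinarith [h1]

/-- `|cos w - sinc w| ≤ 1.1`, multiplied by `w` -/
theorem osc_bound {w : ℝ} (hw : 0 < w) : |w * Real.cos w - Real.sin w| ≤ 1.1 * w := by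
  rcases le_or_gt 4.77 (w ^ 2) with h | h
  · refine abs_le_of_sq_le_sq ?_ (by positivity)
    have h1 := Real.sin_sq_add_cos_sq w
    have h2 : (w * Real.cos w - Real.sin w) ^ 2 ≤ (w ^ 2 + 1) * (Real.sin w ^ 2 + Real.cos w ^ 2) := by
      nlinarith [sq_nonneg (w * Real.sin w + Real.cos w)]
    rw [h1, mul_one] at h2
    nlinarith
  · rw [abs_le]
    have hs5 := sin_le5 hw.le
    have hc6 := cos_ge6 hw.le
    have hs3 := sin_ge3 hw.le
    have hc1 := Real.cos_le_one w
    constructor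
    · have h1 : w * (1 - w ^ 2 / 2 + w ^ 4 / 24 - w ^ 6 / 720) ≤ w * Real.cos w :=
        mul_le_mul_of_nonneg_left hc6 hw.le
      have h2 : -(1.1 : ℝ) ≤ (1 - w ^ 2 / 2 + w ^ 4 / 24 - w ^ 6 / 720)
          - (1 - w ^ 2 / 6 + w ^ 4 / 120) := by
        have hu : 0 ≤ w ^ 2 := sq_nonneg w
        generalize hgu : w ^ 2 = u at h hu
        have e4 : w ^ 4 = u ^ 2 := by rw [← hgu]; ring
        have e6 : w ^ 6 = u ^ 3 := by rw [← hgu]; ring
        rw [e4, e6]
        have hpoly : 0 ≤ (4.77 - u) * (u ^ 2 + 4.77 * u - 24 * u + 4.77 ^ 2 - 24 * 4.77 + 240) := by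
          refine mul_nonneg (by linarith) ?_
          nlinarith [sq_nonneg (u - 9.6)]
        nlinarith [hpoly]
      have h3 := mul_le_mul_of_nonneg_left h2 hw.le
      nlinarith [h3, h1, hs5]
    · have h1 : w * Real.cos w ≤ w * 1 := mul_le_mul_of_nonneg_left hc1 hw.le
      have h2 : w * (w ^ 2 / 6) ≤ w * 1.1 := mul_le_mul_of_nonneg_left (by linarith) hw.le
      nlinarith [h1, h2, hs3]

/-! ### Integrals -/

section

variable {ν : Measure ℝ}

theorem int_bd {f h : ℝ → ℝ} {M : ℝ} (hh : Integrable h ν) (hM : ∫ y, h y ∂ν = M)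
    (hf : ∀ᵐ y ∂ν, |f y| ≤ h y) : |∫ y, f y ∂ν| ≤ M := by
  have h1 : ‖∫ y, f y ∂ν‖ ≤ ∫ y, h y ∂ν :=
    norm_integral_le_of_norm_le hh (hf.mono fun y hy => hy)
  rw [hM] at h1
  exact h1

theorem int_bd' {g : ℝ → ℝ} {M C : ℝ} {j : ℕ} (hh : Integrable (fun y : ℝ => y ^ (2 * j)) ν)
    (hM : ∫ y, y ^ (2 * j) ∂ν = M) (hg : ∀ᵐ y ∂ν, |g y| ≤ C) :
    |∫ y, y ^ (2 * j) * g y ∂ν| ≤ C * M := by
  refine int_bd (h := fun y => C * y ^ (2 * j)) (hh.const_mul C) ?_ ?_
  · rw [integral_const_mul, hM]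
  · filter_upwards [hg] with y hy
    have h1 : 0 ≤ y ^ (2 * j) := by
      rw [pow_mul]
      positivity
    rw [abs_mul, abs_of_nonneg h1, mul_comm]
    exact mul_le_mul_of_nonneg_right hy h1

end

theorem k3_lip (hk : GKER) {a b : ℝ} (ha : 0 ≤ a) (hab : a < b) :
    |k3 (√b) - k3 (√a)| ≤ 1 / 840 * (b - a) := by
  obtain ⟨-, -, -, hb, -, hd, -, hc3, -⟩ := hk
  obtain ⟨c, hc, hc'⟩ := exists_hasDerivAt_eq_slope (fun v => k3 (√v)) (fun v => k4 (√v)) hab
    (hc3.comp Real.continuous_sqrt).continuousOn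
    (fun v hv => (hd v (lt_of_le_of_lt ha hv.1)).2.2)
  have hba : 0 < b - a := sub_pos.2 hab
  rw [eq_div_iff hba.ne'] at hc'
  have h1 := (hb (√c)).2.2
  have h2 : k3 (√b) - k3 (√a) = k4 (√c) * (b - a) := hc'.symm
  rw [h2, abs_mul, abs_of_pos hba]
  exact mul_le_mul_of_nonneg_right h1 hba.le

theorem k3_lip' (hk : GKER) {a b : ℝ} (ha : 0 ≤ a) (hb : 0 ≤ b) :
    |k3 (√a) - k3 (√b)| ≤ 1 / 840 * |a - b| := by
  rcases lt_trichotomy a b with h | h | h
  · have h1 := k3_lip hk ha h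
    rw [abs_sub_comm (k3 (√a)), abs_sub_comm a, abs_of_pos (sub_pos.2 h)]
    exact h1
  · subst h
    simp
  · have h1 := k3_lip hk hb h
    rw [abs_of_pos (sub_pos.2 h)]
    exact h1

theorem gBD : GBD := by
  intro hmo hk hlaw θ hθ0 hθ1 x hx
  obtain ⟨hp, hpos, hI, hmom, hf⟩ := hlaw θ hθ0 hθ1
  obtain ⟨e0, e1, e2, e3⟩ := hf x hx
  obtain ⟨hm0, hm1, hmpos⟩ := hmo.1 θ hθ0 (by linarith)
  have hkb := hk.2.2.2.1
  have hc3 : Continuous k3 := hk.2.2.2.2.2.2.2.1
  have hsx : √x ^ 2 = x := Real.sq_sqrt hx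
  have hs0 : 0 ≤ √x := Real.sqrt_nonneg x
  have hcos : Integrable (fun y => Real.cos (√x * y)) (nu θ) := by
    refine (integrable_const (1 : ℝ)).mono' ?_ (Eventually.of_forall fun y => ?_)
    · exact (Real.continuous_cos.comp (continuous_const.mul continuous_id)).aestronglyMeasurable
    · exact Real.abs_cos_le_one _
  have hone : ∫ _y : ℝ, (1 : ℝ) ∂(nu θ) = 1 := by simp
  have h2 : ∫ y, y ^ 2 ∂(nu θ) = 1 := by
    have h := hmom 1
    rw [hm1] at h
    simpa using h
  have h4 : ∫ y, y ^ 4 ∂(nu θ) = mo θ 2 := hmom 2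
  have hI2 : Integrable (fun y : ℝ => y ^ 2) (nu θ) := hI 2
  refine ⟨?_, ?_, ?_, ?_, ?_, ?_, ?_, ?_, ?_⟩
  · rw [e0]
    exact int_bd (integrable_const (1 : ℝ)) hone (Eventually.of_forall fun y => Real.abs_cos_le_one _)
  · rw [e0]
    have h1 : ∫ y, (1 - x / 2 * y ^ 2) ∂(nu θ) = 1 - x / 2 := by
      rw [integral_sub (integrable_const _) (hI2.const_mul _), hone, integral_const_mul, h2, mul_one]
    rw [← h1]
    refine integral_mono ((integrable_const _).sub (hI2.const_mul _)) hcos fun y => ?_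
    have h3 := Real.one_sub_sq_div_two_le_cos (x := √x * y)
    rw [mul_pow, hsx] at h3
    change 1 - x / 2 * y ^ 2 ≤ Real.cos (√x * y)
    linarith
  · rw [e0]
    have h1 : ∫ y, (1 - x / 2 * y ^ 2 + x ^ 2 / 24 * y ^ 4) ∂(nu θ) =
        1 - x / 2 + mo θ 2 * x ^ 2 / 24 := by
      have hA : Integrable (fun y : ℝ => 1 - x / 2 * y ^ 2) (nu θ) :=
        (integrable_const _).sub (hI2.const_mul _)
      rw [integral_add hA ((hI 4).const_mul _), integral_sub (integrable_const _) (hI2.const_mul _), hone, integral_const_mul, h2,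
        integral_const_mul, h4]
      ring
    rw [← h1]
    refine integral_mono hcos
      (((integrable_const _).sub (hI2.const_mul _)).add ((hI 4).const_mul _)) fun y => ?_
    have h3 := cos_le4' (√x * y)
    have h5 : (√x * y) ^ 4 = x ^ 2 * y ^ 4 := by
      calc (√x * y) ^ 4 = (√x ^ 2) ^ 2 * y ^ 4 := by ring
        _ = x ^ 2 * y ^ 4 := by rw [hsx]
    rw [h5, mul_pow, hsx] at h3
    change Real.cos (√x * y) ≤ 1 - x / 2 * y ^ 2 + x ^ 2 / 24 * y ^ 4
    linarith
  · rw [e1]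
    have h1 := int_bd' (ν := nu θ) (g := fun y => Real.sinc (√x * y)) (C := 1) (j := 1) (hI 2)
      (hmom 1) (Eventually.of_forall fun y => Real.abs_sinc_le_one _)
    rw [hm1] at h1
    simpa using h1
  · have h1 : √x * |f1 θ x| = |∫ y, √x * (y ^ 2 * Real.sinc (√x * y)) ∂(nu θ)| := by
      rw [integral_const_mul, abs_mul, abs_of_nonneg hs0, e1]
    rw [h1]
    refine int_bd (h := fun y => 1 / 2 + 1 / 2 * y ^ 2)
      ((integrable_const _).add (hI2.const_mul _)) ?_ (Eventually.of_forall fun y => ?_)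
    · rw [integral_add (integrable_const _) (hI2.const_mul _), integral_const_mul, h2]
      simp
      norm_num
    · have h3 : √x * (y ^ 2 * Real.sinc (√x * y)) = y * Real.sin (√x * y) := by
        by_cases h0 : √x * y = 0
        · rw [h0, Real.sin_zero, mul_zero, Real.sinc_zero, mul_one]
          calc √x * y ^ 2 = (√x * y) * y := by ring
            _ = 0 := by rw [h0, zero_mul]
        · rw [Real.sinc_of_ne_zero h0]
          have hx0 : √x ≠ 0 := left_ne_zero_of_mul h0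
          have hy0 : y ≠ 0 := right_ne_zero_of_mul h0
          field_simp
      rw [h3, abs_mul]
      have h5 := Real.abs_sin_le_one (√x * y)
      have h6 : |y| * |Real.sin (√x * y)| ≤ |y| * 1 := mul_le_mul_of_nonneg_left h5 (abs_nonneg y)
      have h7 : |y| ^ 2 = y ^ 2 := sq_abs y
      nlinarith [sq_nonneg (|y| - 1)]
  · rw [e2]
    have h1 := int_bd' (ν := nu θ) (g := fun y => k2 (√x * y)) (C := 1 / 6) (j := 2) (hI 4)
      (hmom 2) (Eventually.of_forall fun y => (hkb _).1)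
    have h3 : mo θ 2 / 6 = 1 / 6 * mo θ 2 := by ring
    rw [h3]
    exact h1
  · have h1 : x * |f2 θ x| = |∫ y, x * (y ^ 4 * k2 (√x * y)) ∂(nu θ)| := by
      rw [integral_const_mul, abs_mul, abs_of_nonneg hx, e2]
    rw [h1]
    refine int_bd (h := fun y => 0.55 * y ^ 2) (hI2.const_mul _) ?_ ?_
    · rw [integral_const_mul, h2, mul_one]
    · filter_upwards [hpos] with y hy
      have hw0 : 0 ≤ √x * y := mul_nonneg hs0 hy.le
      have h3 : x * (y ^ 4 * k2 (√x * y)) = y ^ 2 * ((√x * y) ^ 2 * k2 (√x * y)) := by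
        rw [mul_pow, hsx]
        ring
      rw [h3, abs_mul, abs_of_nonneg (sq_nonneg y), mul_comm]
      refine mul_le_mul_of_nonneg_right ?_ (sq_nonneg y)
      generalize √x * y = w at hw0
      rcases hw0.eq_or_lt with h0 | h0
      · rw [← h0]
        norm_num
      · rw [hk.2.2.2.2.1 w h0.ne']
        have h5 := osc_bound h0
        have h6 : w ^ 2 * ((w * Real.cos w - Real.sin w) / (2 * w ^ 3)) =
            (w * Real.cos w - Real.sin w) / (2 * w) := by
          field_simp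
        rw [h6, abs_div, abs_of_pos (by positivity : (0 : ℝ) < 2 * w), div_le_iff₀ (by positivity)]
        linarith
  · rw [e3]
    have h1 := int_bd' (ν := nu θ) (g := fun y => k3 (√x * y)) (C := 1 / 60) (j := 3) (hI 6)
      (hmom 3) (Eventually.of_forall fun y => (hkb _).2.1)
    have h3 : mo θ 3 / 60 = 1 / 60 * mo θ 3 := by ring
    rw [h3]
    exact h1
  · intro x' hx'
    obtain ⟨-, -, -, e3'⟩ := hf x' hx'
    have hint : ∀ s : ℝ, Integrable (fun y : ℝ => y ^ 6 * k3 (s * y)) (nu θ) := by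
      intro s
      have hcont : Continuous (fun y : ℝ => y ^ 6 * k3 (s * y)) :=
        (continuous_pow 6).mul (hc3.comp (continuous_const.mul continuous_id))
      refine ((hI 6).const_mul (1 / 60)).mono' hcont.aestronglyMeasurable
        (Eventually.of_forall fun y => ?_)
      have h6 : (0 : ℝ) ≤ y ^ 6 := by positivity
      rw [Real.norm_eq_abs, abs_mul, abs_of_nonneg h6, mul_comm]
      exact mul_le_mul_of_nonneg_right (hkb _).2.1 h6
    rw [e3, e3', ← integral_sub (hint _) (hint _)]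
    refine int_bd (h := fun y => 1 / 840 * |x - x'| * y ^ 8) ((hI 8).const_mul _) ?_ ?_
    · rw [integral_const_mul]
      have h8 : ∫ y, y ^ 8 ∂(nu θ) = mo θ 4 := hmom 4
      rw [h8]
      ring
    · filter_upwards [hpos] with y hy
      have h6 : (0 : ℝ) ≤ y ^ 6 := by positivity
      have ex : ∀ z : ℝ, 0 ≤ z → √z * y = √(z * y ^ 2) := by
        intro z hz
        rw [Real.sqrt_mul hz, Real.sqrt_sq hy.le]
      rw [← mul_sub, abs_mul, abs_of_nonneg h6, ex x hx, ex x' hx']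
      have h5 := k3_lip' hk (mul_nonneg hx (sq_nonneg y)) (mul_nonneg hx' (sq_nonneg y))
      have h7 : |x * y ^ 2 - x' * y ^ 2| = |x - x'| * y ^ 2 := by
        rw [← sub_mul, abs_mul, abs_of_nonneg (sq_nonneg y)]
      rw [h7] at h5
      calc y ^ 6 * |k3 (√(x * y ^ 2)) - k3 (√(x' * y ^ 2))|
          ≤ y ^ 6 * (1 / 840 * (|x - x'| * y ^ 2)) := mul_le_mul_of_nonneg_left h5 h6
        _ = 1 / 840 * |x - x'| * y ^ 8 := by ring

end Pool.Agent.Helper90.PT
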