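import Pool.Agent.Helper53.PT.GoalsC

/-!
Packet SQ for MP_705522_gt (integer square root bounds).
-/

namespace Pool.Agent.Helper90.PT

open Pool.Agent.Helper53.PT

theorem frc_eq {α : Type} (n : ℕ) (f : ℕ → α) : N.frc n f = f n := by
  cases n <;> rfl

theorem newton (y r : ℕ) (hr : 0 < r) :
    √(y : ℝ) ≤ (Nat.succ (Nat.shiftRight (Nat.add r (Nat.div y r)) 1) : ℕ) := by
  have h1 : Nat.shiftRight (Nat.add r (Nat.div y r)) 1 = (r + y / r) / 2 := rfl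
  rw [h1]
  have hr' : (0 : ℝ) < r := by exact_mod_cast hr
  have h2 : r + y / r ≤ 2 * ((r + y / r) / 2) + 1 := by omega
  have h3 : y < r * (y / r + 1) := Nat.lt_mul_div_succ y hr
  have h2' : (r : ℝ) + ((y / r : ℕ) : ℝ) ≤ 2 * (((r + y / r) / 2 : ℕ) : ℝ) + 1 := by
    exact_mod_cast h2
  have h3' : (y : ℝ) ≤ r * (((y / r : ℕ) : ℝ) + 1) := by exact_mod_cast h3.le
  have hs : (0 : ℝ) ≤ (Nat.succ ((r + y / r) / 2) : ℕ) := Nat.cast_nonneg _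
  rw [Real.sqrt_le_left hs]
  push_cast
  set s : ℝ := (((r + y / r) / 2 : ℕ) : ℝ) with hsdef
  set t : ℝ := ((y / r : ℕ) : ℝ) with htdef
  have ht : 0 ≤ t := Nat.cast_nonneg _
  have h4 : (r : ℝ) + (t + 1) ≤ 2 * (s + 1) := by linarith
  nlinarith [sq_nonneg ((r : ℝ) - (t + 1))]

theorem gSQ : GSQ := by
  intro y
  have h0 : 0 < Nat.shiftLeft 3 (Nat.sub (Nat.shiftRight (Nat.log2 y) 1) 1) := by
    show 0 < 3 <<< ((Nat.log2 y) >>> 1 - 1)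
    rw [Nat.shiftLeft_eq]
    positivity
  have hU : √(y : ℝ) ≤ N.sqU y ∧ 0 < N.sqU y := by
    unfold N.sqU
    simp only [frc_eq]
    exact ⟨newton y _ (Nat.succ_pos _), Nat.succ_pos _⟩
  refine ⟨hU.1, ?_, hU.2⟩
  have h1 : N.sqL y = y / N.sqU y := rfl
  have hp : (0 : ℝ) < N.sqU y := by exact_mod_cast hU.2
  rw [h1]
  refine Nat.cast_div_le.trans ?_
  rw [div_le_iff₀ hp]
  calc (y : ℝ) = √(y : ℝ) * √(y : ℝ) := (Real.mul_self_sqrt (Nat.cast_nonneg y)).symm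
    _ ≤ √(y : ℝ) * N.sqU y := mul_le_mul_of_nonneg_left hU.1 (Real.sqrt_nonneg _)

end Pool.Agent.Helper90.PT
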