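import Pool.Agent.Helper53.PT.GoalsC
import Pool.Agent.Helper53.PT.B

/-!
Packet FAN for MP_705522_gt (the first zero and the signs).
-/

namespace Pool.Agent.Helper90.PT

open Pool.Agent.Helper53.PT

theorem vR_le {a b : ℕ} (h : a ≤ b) : vR a ≤ vR b := by
  unfold vR
  have : (a : ℝ) ≤ b := by exact_mod_cast h
  exact div_le_div_of_nonneg_right this (by positivity)

theorem vR_lt {a b : ℕ} (h : a < b) : vR a < vR b := by
  unfold vR
  have : (a : ℝ) < b := by exact_mod_cast h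
  exact div_lt_div_of_pos_right this (by positivity)

theorem vR_add (a b : ℕ) : vR (a + b) = vR a + vR b := by
  unfold vR
  push_cast
  ring

theorem vR_one : vR (2 ^ 40) = 1 := by
  unfold vR
  norm_num

theorem vR_sub {a b : ℕ} (h : b ≤ a) : vR (a - b) = vR a - vR b := by
  have := vR_add (a - b) b
  rw [Nat.sub_add_cancel h] at this
  linarith

theorem xR_lt (hG : GGRID) {j k : ℕ} (h : j < k) (hk : k ≤ 1152) : xR j < xR k := by
  obtain ⟨-, -, -, h4, -⟩ := hG
  unfold xR aR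
  have : (N.xgN j : ℝ) < N.xgN k := by exact_mod_cast h4 j k h hk
  exact div_lt_div_of_pos_right this (by positivity)

theorem xR_le (hG : GGRID) {j k : ℕ} (h : j ≤ k) (hk : k ≤ 1152) : xR j ≤ xR k := by
  rcases h.eq_or_lt with h | h
  · rw [h]
  · exact (xR_lt hG h hk).le

theorem xR_zero (hG : GGRID) : xR 0 = 0 := by
  unfold xR aR
  rw [hG.1]
  simp

theorem xR_top (hG : GGRID) : xR 1152 = 64 := by
  unfold xR aR
  rw [hG.2.1]
  norm_num

theorem cell (hG : GGRID) (a b : ℕ) (hab : a < b) (hb : b ≤ 1152) (x : ℝ) (h1 : xR a ≤ x)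
    (h2 : x ≤ xR b) : ∃ k, a ≤ k ∧ k < b ∧ xR k ≤ x ∧ x ≤ xR (k + 1) := by
  induction b with
  | zero => omega
  | succ b ih =>
    by_cases h : x ≤ xR b
    · by_cases hab' : a < b
      · obtain ⟨k, hk1, hk2, hk3, hk4⟩ := ih hab' (by omega) h
        exact ⟨k, hk1, by omega, hk3, hk4⟩
      · have : a = b := by omega
        subst this
        exact ⟨a, le_rfl, by omega, h1, h2⟩
    · push Not at h
      exact ⟨b, by omega, by omega, h.le, h2⟩

theorem lam_ex (hG : GGRID) (k : ℕ) (hk : k < 1152) (x : ℝ) (h1 : xR k ≤ x) (h2 : x ≤ xR (k + 1)) :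
    ∃ l : ℝ, 0 ≤ l ∧ l ≤ 1 ∧ x = (1 - l) * xR k + l * xR (k + 1) := by
  have hd : 0 < xR (k + 1) - xR k := sub_pos.2 (xR_lt hG (Nat.lt_succ_self k) (by omega))
  refine ⟨(x - xR k) / (xR (k + 1) - xR k), div_nonneg (by linarith) hd.le, ?_, ?_⟩
  · rw [div_le_one hd]
    linarith
  · have h3 : (x - xR k) / (xR (k + 1) - xR k) * (xR (k + 1) - xR k) = x - xR k :=
      div_mul_cancel₀ _ hd.ne'
    linarith

/-- a convex combination is at least the common lower bound -/
theorem cc_ge {l a b c : ℝ} (h0 : 0 ≤ l) (h1 : l ≤ 1) (ha : c ≤ a) (hb : c ≤ b) :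
    c ≤ (1 - l) * a + l * b := by nlinarith

theorem cc_gt {l a b c : ℝ} (h0 : 0 ≤ l) (h1 : l ≤ 1) (ha : c < a) (hb : c < b) :
    c < (1 - l) * a + l * b := by
  have h2 : c < min a b := lt_min ha hb
  have h3 := cc_ge h0 h1 (min_le_left a b) (min_le_right a b)
  linarith

theorem cc_le {l a b c : ℝ} (h0 : 0 ≤ l) (h1 : l ≤ 1) (ha : a ≤ c) (hb : b ≤ c) :
    (1 - l) * a + l * b ≤ c := by nlinarith

theorem mx_lt {a b c : ℕ} (h1 : a + c < 2 ^ 40) (h2 : b + c < 2 ^ 40) : max a b + c < 2 ^ 40 := by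
  omega

theorem n0_aux (a b c : ℕ) (h1 : a + c < 2 ^ 40) (h2 : b + c < 2 ^ 40) :
    Nat.sub (N.mn (N.np a) (N.np b)) c + (max a b + c) ≤ 2 ^ 40 := by
  have h3 : N.mn (N.np a) (N.np b) = min (1099511627776 - a) (1099511627776 - b) := by
    unfold N.mn N.np
    by_cases h : (1099511627776 - a) ≤ (1099511627776 - b)
    · rw [min_eq_left h, show (Nat.ble (Nat.sub 1099511627776 a) (Nat.sub 1099511627776 b)) = true from
        Nat.ble_eq_true_of_le h]
      rfl
    · have h' : (Nat.ble (Nat.sub 1099511627776 a) (Nat.sub 1099511627776 b)) = false := by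
        rw [← Bool.not_eq_true]
        intro h4
        exact h (Nat.le_of_ble_eq_true h4)
      rw [min_eq_right (by omega), h']
      rfl
  rw [h3, show Nat.sub (min (1099511627776 - a) (1099511627776 - b)) c =
    min (1099511627776 - a) (1099511627776 - b) - c from rfl]
  omega

theorem add_lt {a : ℕ} (h : 2 ^ 40 + 2 ^ 20 ≤ a) : 2 ^ 40 < a := by
  omega

theorem gFAN : GFAN := by
  intro hFLD hG A B I θ hB hT hI hC
  have hN := hI.N1
  have hkz := hI.kzR
  have hRM := hI.RM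
  have hMN := hI.MN
  have hRW := hI.RW
  have hWN := hI.WN
  have hRD := hI.RD
  have hDN := hI.DN
  have hz1 := hI.z1
  -- the first zero is after `xR kz`
  have hzL : 0 < f0 θ (xR I.kz) := by
    have h1 := hI.pl I.kz le_rfl
    have h2 := hT.pl I.kz (by omega)
    have h3 : (2 : ℕ) ^ 40 < N.fld (N.tPL B) I.kz := by
      have : 0 < (2 : ℕ) ^ 20 := by positivity
      omega
    have h4 := vR_lt h3
    rw [vR_one] at h4
    linarith
  have hzR : f0 θ (xR I.kR) < 0 := by
    have h2 := hT.pu I.kR (by omega)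
    have h4 := vR_lt hI.pu
    rw [vR_one] at h4
    linarith
  have hf1 : ∀ k < I.kM, ∀ x, xR k ≤ x → x ≤ xR (k + 1) → 0 < f1 θ x := fun k hk x h1 h2 => by
    obtain ⟨l, l0, l1, rfl⟩ := lam_ex hG k (by omega) x h1 h2
    have h3 := (abs_le.1 (hC.c1 k (by omega) l l0 l1)).1
    have h8 := hT.sl k (by omega)
    have h9 := hT.sl (k + 1) (by omega)
    obtain ⟨h4, h5⟩ := hI.s1 k hk
    have h6 := vR_lt h4
    have h7 := vR_lt h5
    rw [vR_add, vR_one] at h6 h7
    have h10 := cc_gt l0 l1 (lt_of_lt_of_le (by linarith : vR (N.csF B.m3R (N.fld (N.tST B) k)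
      (N.shf k)) < vR (N.fld (N.tSL B) k) - 1) h8)
      (lt_of_lt_of_le (by linarith : vR (N.csF B.m3R (N.fld (N.tST B) k)
      (N.shf k)) < vR (N.fld (N.tSL B) (k + 1)) - 1) h9)
    linarith
  have hf0 : ∀ k, I.kM ≤ k → k < I.kN → ∀ x, xR k ≤ x → x ≤ xR (k + 1) →
      f0 θ x ≤ vR (max (N.fld (N.tPU B) k) (N.fld (N.tPU B) (k + 1)) +
        N.cpF (N.fld (N.tST B) k) (N.shf k)) - 1 := fun k hk hk' x h1 h2 => by
    obtain ⟨l, l0, l1, rfl⟩ := lam_ex hG k (by omega) x h1 h2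
    have h3 := (abs_le.1 (hC.c0 k (by omega) l l0 l1)).2
    have h8 := hT.pu k (by omega)
    have h9 := hT.pu (k + 1) (by omega)
    have h10 := vR_le (le_max_left (N.fld (N.tPU B) k) (N.fld (N.tPU B) (k + 1)))
    have h11 := vR_le (le_max_right (N.fld (N.tPU B) k) (N.fld (N.tPU B) (k + 1)))
    have h12 := cc_le l0 l1 (h8.trans (sub_le_sub_right h10 1)) (h9.trans (sub_le_sub_right h11 1))
    rw [vR_add]
    linarith
  have hf0' : ∀ k, I.kM ≤ k → k < I.kN → ∀ x, xR k ≤ x → x ≤ xR (k + 1) → f0 θ x < 0 :=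
    fun k hk hk' x h1 h2 => by
    have h3 := hf0 k hk hk' x h1 h2
    obtain ⟨h4, h5⟩ := hI.N0 k hk hk'
    have h6 := mx_lt h4 h5
    have h7 := vR_lt h6
    rw [vR_one] at h7
    linarith
  have hW : ∀ x, 0 ≤ x → x ≤ xR I.kW → 0 < Wf θ x := fun x h1 h2 => by
    obtain ⟨k, -, hk, h3, h4⟩ := cell hG 0 I.kW (by omega) (by omega) x (by rw [xR_zero hG]; exact h1) h2
    obtain ⟨l, l0, l1, rfl⟩ := lam_ex hG k (by omega) x h3 h4
    have h5 := hC.w1 k (by omega) l l0 l1
    have hW9 := hI.W9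
    have h10 := hC.w0 k (by omega)
    have h11 := hC.w0 (k + 1) (by omega)
    obtain ⟨h6, h7⟩ := hI.W k hk
    have h8 := vR_lt h6
    have h9 := vR_lt h7
    rw [vR_add, vR_one] at h8 h9
    have h12 := cc_gt l0 l1 (lt_of_lt_of_le (by linarith : vR (N.wSl B k) <
      vR (N.fld (N.tW B) k) - 1) h10) (lt_of_lt_of_le (by linarith : vR (N.wSl B k) <
      vR (N.fld (N.tW B) (k + 1)) - 1) h11)
    linarith
  have hNn : ∀ x, xR I.kM ≤ x → x ≤ xR I.kN → f0 θ x < 0 := fun x h1 h2 => by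
    obtain ⟨k, hk1, hk2, h3, h4⟩ := cell hG I.kM I.kN hMN hN x h1 h2
    exact hf0' k hk1 hk2 x h3 h4
  have hD : ∀ x, xR I.kM ≤ x → x ≤ xR I.kD → f0 θ x < f1 θ x := fun x h1 h2 => by
    rcases lt_trichotomy I.kM I.kD with h | h | h
    · obtain ⟨k, hk1, hk2, h3, h4⟩ := cell hG I.kM I.kD h (by omega) x h1 h2
      obtain ⟨l, l0, l1, rfl⟩ := lam_ex hG k (by omega) x h3 h4
      have h5 := (abs_le.1 (hC.c0 k (by omega) l l0 l1)).2
      have h6 := (abs_le.1 (hC.c1 k (by omega) l l0 l1)).1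
      have a1 := hT.pu k (by omega)
      have a2 := hT.pu (k + 1) (by omega)
      have a3 := hT.sl k (by omega)
      have a4 := hT.sl (k + 1) (by omega)
      obtain ⟨h7, h8⟩ := hI.D k hk1 hk2
      have h7' := vR_lt h7
      have h8' := vR_lt h8
      simp only [vR_add] at h7' h8'
      have h9 := cc_gt l0 l1 (show vR (N.csF B.m3R (N.fld (N.tST B) k) (N.shf k)) +
          vR (N.cpF (N.fld (N.tST B) k) (N.shf k)) < f1 θ (xR k) - f0 θ (xR k) by linarith)
        (show vR (N.csF B.m3R (N.fld (N.tST B) k) (N.shf k)) +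
          vR (N.cpF (N.fld (N.tST B) k) (N.shf k)) < f1 θ (xR (k + 1)) - f0 θ (xR (k + 1)) by linarith)
      nlinarith
    · rw [← h] at h2
      have hx : x = xR I.kM := le_antisymm h2 h1
      rw [hx]
      have h3 := hf0' I.kM le_rfl hMN (xR I.kM) le_rfl (xR_le hG (Nat.le_succ _) (by omega))
      have h4 := hf1 (I.kM - 1) (by omega) (xR I.kM) (xR_le hG (Nat.sub_le _ _) (by omega))
        (by rw [Nat.sub_add_cancel (by omega)])
      linarith
    · have := xR_lt hG h (by omega)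
      linarith
  have hs1 : ∀ x, 0 ≤ x → x < xR I.kM → 0 < f1 θ x := fun x h1 h2 => by
    obtain ⟨k, -, hk, h3, h4⟩ := cell hG 0 I.kM (by omega) (by omega) x (by rw [xR_zero hG]; exact h1) h2.le
    exact hf1 k hk x h3 h4
  have h0z : 0 < xR I.kz := by
    rw [← xR_zero hG]
    exact xR_lt hG (by omega) (by omega)
  refine ⟨?_, ?_, ?_⟩
  · obtain ⟨z, z1, z2, z3⟩ := bFA θ (xR I.kz) (xR I.kR) (xR I.kM) (xR I.kW) (xR I.kD) (xR I.kN)
      hB.th0 hB.th1 h0z (xR_lt hG hkz (by omega)) (xR_le hG hRM (by omega)) hzL hzR hs1 hW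
      (xR_le hG hRW (by omega)) hD (xR_le hG hRD (by omega)) hNn (xR_le hG hMN.le hN)
      (xR_le hG hWN hN) (xR_le hG hDN hN)
    exact ⟨z, z3, z1, z2⟩
  · intro hni x hx
    have h1 := hI.ni hni
    by_cases h2 : x ≤ 64
    · exact hNn x hx (by rw [h1, xR_top hG]; exact h2)
    · push Not at h2
      exact hB.ni hni x h2.le
  · obtain ⟨-, -, -, -, -, hpre, -⟩ := hFLD
    have hpre' : ∀ j < I.kN - I.kM, N.fld (N.tN0 B I.kM I.kN) j =
        min (if j = 0 then 1099511627776 else N.fld (N.tN0 B I.kM I.kN) (j - 1))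
          (N.n0F B (I.kM + j)) := fun j hj =>
      hpre (fun j => N.n0F B (Nat.add I.kM j)) 1099511627776 (I.kN - I.kM) (by norm_num) j hj
    have hlast : ∀ k, I.kM ≤ k → k < I.kN → ∀ x, xR k ≤ x → x ≤ xR (k + 1) →
        vR (N.n0F B k) ≤ -f0 θ x := fun k hk hk' x h1 h2 => by
      have h3 := hf0 k hk hk' x h1 h2
      obtain ⟨h4, h5⟩ := hI.N0 k hk hk'
      have h6 : N.n0F B k + (max (N.fld (N.tPU B) k) (N.fld (N.tPU B) (k + 1)) +
          N.cpF (N.fld (N.tST B) k) (N.shf k)) ≤ 2 ^ 40 := n0_aux _ _ _ h4 h5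
      have h7 := vR_le h6
      rw [vR_add, vR_one] at h7
      linarith
    have key : ∀ j, I.kM + j < I.kN → ∀ y, xR I.kM ≤ y → y ≤ xR (I.kM + j + 1) →
        vR (N.fld (N.tN0 B I.kM I.kN) j) ≤ -f0 θ y := by
      intro j
      induction j with
      | zero =>
        intro hj y h1 h2
        refine (vR_le ?_).trans (hlast (I.kM + 0) (by omega) hj y h1 h2)
        rw [hpre' 0 (by omega)]
        exact min_le_right _ _
      | succ j ih =>
        intro hj y h1 h2
        have h3 := hpre' (j + 1) (by omega)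
        by_cases h4 : y ≤ xR (I.kM + j + 1)
        · refine (vR_le ?_).trans (ih (by omega) y h1 h4)
          rw [h3]
          exact min_le_left _ _
        · push Not at h4
          refine (vR_le ?_).trans (hlast (I.kM + (j + 1)) (by omega) hj y h4.le h2)
          rw [h3]
          exact min_le_right _ _
    intro k hk1 hk2 y h1 h2
    have h3 : I.kM + (k - I.kM) = k := by omega
    refine key (k - I.kM) (by omega) y h1 ?_
    rw [h3]
    exact h2

end Pool.Agent.Helper90.PT
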